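import Pool.Agent.Helper66_KF.Stmts

/-!
# Squad KF, row MUL: `χ(u b)` is an integral multiple of the common degree
-/

open scoped BigOperators

noncomputable section

namespace Pool.Agent.PP.KF.H30

open Pool.Agent.Helper51_AWC Pool.Agent.Helper79_WRA Pool.Agent.PP Pool.Agent.PP.KF

/-- a central element of order two acts by a sign -/
theorem cent_sign {C : Type} [Group C] {θ : C → ℂ} (hθ : θ ∈ Irr C) {z : C}
    (hz : ∀ c, z * c = c * z) (hz2 : z * z = 1) : ∃ s : ℤ, ∀ c, θ (z * c) = s * θ c := by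
  obtain ⟨n, ρ, hρ, rfl⟩ := hθ
  obtain ⟨k, hk⟩ := schur_scalar ρ (ρ z) (by
    intro g
    have h1 : ρ z * ρ g = ρ g * ρ z := by rw [← map_mul, ← map_mul, hz]
    exact h1)
  have h1 : ∀ c, ρ.character (z * c) = k * ρ.character c := by
    intro c
    show LinearMap.trace ℂ _ (ρ (z * c)) = k * LinearMap.trace ℂ _ (ρ c)
    rw [map_mul, hk, smul_mul_assoc, map_smul, smul_eq_mul]
    rfl
  have h2 : ρ.character 1 ≠ 0 := irr_one_ne (mem_Irr_of_irreducible ρ)
  have h3 : k * k = 1 := by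
    have e1 := h1 (z * 1)
    rw [h1 1, ← mul_assoc, hz2, one_mul, ← mul_assoc] at e1
    exact (mul_right_cancel₀ h2 (by rw [one_mul]; exact e1)).symm
  rcases mul_self_eq_one_iff.1 h3 with h | h
  · exact ⟨1, fun c => by rw [h1, h]; push_cast; ring⟩
  · exact ⟨-1, fun c => by rw [h1, h]; push_cast; ring⟩

/-- the multiplicity of an irreducible character of a subgroup in a character is an integer -/
theorem mult_int {G : Type} [Group G] (C : Subgroup G) [Fintype C] {χ : G → ℂ} (hχ : χ ∈ Irr G)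
    {θ : C → ℂ} (hθ : θ ∈ Irr C) :
    ∃ m : ℤ, (Nat.card C : ℂ)⁻¹ * ∑ c : C, χ c * θ c⁻¹ = m := by
  obtain ⟨n, ρ, hρ, rfl⟩ := hχ
  obtain ⟨n', σ, hσ, rfl⟩ := hθ
  have hc : (Nat.card C : ℂ) ≠ 0 := by exact_mod_cast Nat.card_pos.ne'
  have := invertibleOfNonzero hc
  obtain ⟨τ, hτ⟩ : ∃ τ : Representation ℂ C (Fin n → ℂ), τ = ρ.comp C.subtype := ⟨_, rfl⟩
  have h := Representation.card_inv_mul_sum_char_mul_char_eq_finrank σ τ
  refine ⟨_, Eq.trans ?_ (h.trans (Int.cast_natCast _).symm)⟩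
  rw [hτ]
  rfl

theorem mul_ : MulStmt := by
  intro M _ G _ _ u hu b hb a ha χ hχ
  classical
  have := Fintype.ofFinite G
  have := Fintype.ofFinite (Cu u)
  have hS : (IrrE M b).Finite := irr_finite'.subset (fun θ h => h.1)
  obtain ⟨uC, huC⟩ : ∃ uC : Cu u, (uC : G) = u :=
    ⟨⟨u, Subgroup.mem_centralizer_singleton_iff.2 rfl⟩, rfl⟩
  have hz : ∀ c : Cu u, uC * c = c * uC := by
    intro c
    apply Subtype.ext
    show (uC : G) * c = c * uC
    rw [huC]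
    exact (Subgroup.mem_centralizer_singleton_iff.1 c.2).symm
  have hz2 : uC * uC = 1 := by
    apply Subtype.ext
    show (uC : G) * uC = 1
    rw [huC]
    exact hu.sq
  -- the value as a sum over the centraliser
  have h1 : chv (ub u (eh M b)) χ = ∑ c : Cu u, eh M b c * χ (u * c) := by
    rw [chv, finsum_eq_sum_of_fintype, ← Equiv.sum_comp (Equiv.mulLeft u)]
    symm
    apply Fintype.sum_of_injective (fun c : Cu u => (c : G)) Subtype.val_injective
    · intro g hg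
      have hg' : g ∉ Cu u := fun h => hg ⟨⟨g, h⟩, rfl⟩
      show ub u (eh M b) (u * g) * χ (u * g) = 0
      rw [ub, inv_mul_cancel_left, PP.ext0, dif_neg hg', zero_mul]
    · intro c
      show eh M b c * χ (u * c) = ub u (eh M b) (u * c) * χ (u * c)
      rw [ub, inv_mul_cancel_left, PP.ext0, dif_pos c.2]
  have h2 : ∀ θ ∈ hS.toFinset, ∃ m : ℤ,
      (Nat.card (Cu u) : ℂ)⁻¹ * ∑ c : Cu u, θ c⁻¹ * χ (u * c) = m := by
    intro θ hθ
    have hθ' : θ ∈ Irr (Cu u) := (hS.mem_toFinset.1 hθ).1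
    obtain ⟨s, hs⟩ := cent_sign hθ' hz hz2
    obtain ⟨m, hm⟩ := mult_int (Cu u) hχ hθ'
    refine ⟨s * m, ?_⟩
    push_cast
    rw [← hm, mul_left_comm (s : ℂ), Finset.mul_sum (a := (s : ℂ)),
      ← Equiv.sum_comp (Equiv.mulLeft uC)]
    refine congrArg ((Nat.card (Cu u) : ℂ)⁻¹ * ·) (Finset.sum_congr rfl fun c _ => ?_)
    show θ (uC * c)⁻¹ * χ (u * ((uC * c : Cu u) : G)) = s * (χ c * θ c⁻¹)
    have e1 : u * ((uC * c : Cu u) : G) = c := by
      rw [Subgroup.coe_mul, huC, ← mul_assoc, hu.sq, one_mul]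
    have e2 : (uC * c)⁻¹ = uC * c⁻¹ := by
      have e3 : uC⁻¹ = uC := inv_eq_of_mul_eq_one_left hz2
      rw [mul_inv_rev, e3, hz]
    rw [e1, e2, hs]
    ring
  choose! m hm using h2
  refine ⟨∑ θ ∈ hS.toFinset, m θ, ?_⟩
  rw [h1]
  have h3 : ∀ c : Cu u, eh M b c =
      (Nat.card (Cu u) : ℂ)⁻¹ * ∑ θ ∈ hS.toFinset, (a : ℂ) * θ c⁻¹ := by
    intro c
    rw [eh, finsum_mem_eq_finite_toFinset_sum _ hS]
    congr 1
    refine Finset.sum_congr rfl fun θ hθ => ?_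
    rw [ha θ (hS.mem_toFinset.1 hθ)]
  have h4 : ((∑ θ ∈ hS.toFinset, m θ : ℤ) : ℂ) = ∑ θ ∈ hS.toFinset,
      (Nat.card (Cu u) : ℂ)⁻¹ * ∑ c : Cu u, θ c⁻¹ * χ (u * c) := by
    rw [Int.cast_sum]
    exact Finset.sum_congr rfl fun θ hθ => (hm θ hθ).symm
  rw [h4]
  simp only [h3]
  simp_rw [Finset.mul_sum, Finset.sum_mul]
  rw [Finset.sum_comm]
  refine Finset.sum_congr rfl fun θ _ => Finset.sum_congr rfl fun c _ => ?_
  ring

end Pool.Agent.PP.KF.H30
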